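import Pool.Agent.helper47.MSW.SpecA

set_option autoImplicit false

namespace Pool.Agent.MSW

open Equiv Finset Function MeasureTheory Pool.Agent.helper48.PP
open Pool.Agent.DSW (Pr Has GP wt)
open scoped ENNReal Classical

noncomputable section

theorem RFB_sub_sub {w q : Pt} (h : q ≤ w) : w - (w - q) = q := by
  obtain ⟨h1, h2⟩ := h
  apply Prod.ext
  · show w.1 - (w.1 - q.1) = q.1
    have : q.1 ≤ w.1 := h1
    omega
  · show w.2 - (w.2 - q.2) = q.2
    have : q.2 ≤ w.2 := h2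
    omega

theorem RFB_sub_le (w q : Pt) : w - q ≤ w := by
  constructor
  · show w.1 - q.1 ≤ w.1
    omega
  · show w.2 - q.2 ≤ w.2
    omega

theorem RFB_sub_mono {w q q' : Pt} (h : q ≤ q') : w - q' ≤ w - q := by
  obtain ⟨h1, h2⟩ := h
  constructor
  · show w.1 - q'.1 ≤ w.1 - q.1
    have : q.1 ≤ q'.1 := h1
    omega
  · show w.2 - q'.2 ≤ w.2 - q.2
    have : q.2 ≤ q'.2 := h2
    omega

theorem RFB_zero_le (w : Pt) : (0 : Pt) ≤ w := ⟨Nat.zero_le _, Nat.zero_le _⟩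

theorem RFB_sub_zero (w : Pt) : w - 0 = w := by
  apply Prod.ext
  · show w.1 - 0 = w.1
    omega
  · show w.2 - 0 = w.2
    omega

theorem RFB_HL (hRFA : RFA_stmt) (Y : List Pat) (hY : ∀ b ∈ Y, RC b) (ω : Om) (w q : Pt)
    (hq : q ≤ w) : HL Y.reverse (fun c => ω (rf w c)) 0 (w - q) ↔ HL Y ω q w := by
  have h := hRFA Y.reverse (fun b hb => hY b (List.mem_reverse.1 hb)) ω w 0 (w - q)
    (RFB_zero_le _) (RFB_sub_le _ _)
  rw [List.reverse_reverse, RFB_sub_sub hq, RFB_sub_zero] at h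
  exact h

theorem RFB_iff (hHLA : HLA_stmt) (hRFA : RFA_stmt) (Y : List Pat) (hY : ∀ b ∈ Y, RC b) (ω : Om)
    (w q : Pt) (hq : q ≤ w) :
    mxV Y ω w q ↔ mnU Y.reverse (fun c => ω (rf w c)) (w - q) := by
  constructor
  · rintro ⟨h1, h2⟩
    refine ⟨(RFB_HL hRFA Y hY ω w q hq).2 h1, fun z' hz' hle => ?_⟩
    have hzw : z' ≤ w := hle.trans (RFB_sub_le _ _)
    have h3 : HL Y ω (w - z') w := by
      apply (RFB_HL hRFA Y hY ω w (w - z') (RFB_sub_le _ _)).1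
      rw [RFB_sub_sub hzw]
      exact hz'
    have h4 : q ≤ w - z' := by
      have h5 := RFB_sub_mono (w := w) hle
      rw [RFB_sub_sub hq] at h5
      exact h5
    have h6 := h2 (w - z') h3 h4
    rw [← h6, RFB_sub_sub hzw]
  · rintro ⟨h1, h2⟩
    refine ⟨(RFB_HL hRFA Y hY ω w q hq).1 h1, fun q' hq' hle => ?_⟩
    have hqw : q' ≤ w := hHLA.1 Y ω q' w hq'
    have h3 := (RFB_HL hRFA Y hY ω w q' hqw).2 hq'
    have h4 := h2 (w - q') h3 (RFB_sub_mono hle)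
    have h5 : w - (w - q') = w - (w - q) := by rw [h4]
    rw [RFB_sub_sub hqw, RFB_sub_sub hq] at h5
    exact h5

theorem RFB_inj (w : Pt) (F : Finset Pt) (hF : ∀ c ∈ F, c.1 < w.1 ∧ c.2 < w.2) :
    Set.InjOn (rf w) (F : Set Pt) := by
  intro c hc d hd h
  have h1 := hF c hc
  have h2 := hF d hd
  have h3 : w.1 - 1 - c.1 = w.1 - 1 - d.1 := congrArg Prod.fst h
  have h4 : w.2 - 1 - c.2 = w.2 - 1 - d.2 := congrArg Prod.snd h
  apply Prod.ext
  · omega
  · omega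

theorem RFB (hHLA : HLA_stmt) (hHMN : HMN_stmt) (hRFA : RFA_stmt) (hTRN : TRN_stmt) :
    RFB_stmt := by
  intro Y hY p hp0 hp1 w q q' hq hq'
  have hset : {ω : Om | mxV Y ω w q ∧ mxV Y ω w q'} =
      {ω : Om | (fun c => ω (rf w c)) ∈
        {ω : Om | mnU Y.reverse ω (w - q) ∧ mnU Y.reverse ω (w - q')}} := by
    ext ω
    show (mxV Y ω w q ∧ mxV Y ω w q') ↔
      (mnU Y.reverse (fun c => ω (rf w c)) (w - q) ∧ mnU Y.reverse (fun c => ω (rf w c)) (w - q'))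
    rw [RFB_iff hHLA hRFA Y hY ω w q hq, RFB_iff hHLA hRFA Y hY ω w q' hq']
  rw [hset]
  apply hTRN p (box 0 (w - q) ∪ box 0 (w - q')) _ (rf w) hp0 hp1
  · exact Dep.inter (hHMN.2.2.1 Y.reverse (w - q)) (hHMN.2.2.1 Y.reverse (w - q'))
  · apply RFB_inj
    intro c hc
    rw [Finset.mem_union, mem_box, mem_box] at hc
    have e1 : (w - q).1 = w.1 - q.1 := rfl
    have e2 : (w - q).2 = w.2 - q.2 := rfl
    have e3 : (w - q').1 = w.1 - q'.1 := rfl
    have e4 : (w - q').2 = w.2 - q'.2 := rfl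
    rcases hc with hc | hc
    · obtain ⟨_, h1, h2⟩ := hc
      rw [e1] at h1
      rw [e2] at h2
      omega
    · obtain ⟨_, h1, h2⟩ := hc
      rw [e3] at h1
      rw [e4] at h2
      omega

end

end Pool.Agent.MSW
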