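import Pool.Agent.helper47.MSW.SpecB
import Pool.Agent.helper47.MSW.SpecD

set_option autoImplicit false

namespace Pool.Agent.MSW

open Equiv Finset Function MeasureTheory Pool.Agent.helper48.PP
open Pool.Agent.DSW (Pr Has GP wt)
open scoped ENNReal Classical

noncomputable section

/-- The list with the orientations `b`. -/
def RAT_L (T : ℕ) (m s : ℕ → ℕ) (b : ℕ → Bool) : List (ℕ × Bool) :=
  (List.range T).flatMap fun i => List.replicate (m i) (s i, b i)

theorem RAT_flp (T : ℕ) (m s : ℕ → ℕ) (b : ℕ → Bool) :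
    flp (RAT_L T m s b) = RAT_L T m s fun i => !b i := by
  unfold flp RAT_L
  rw [List.map_flatMap]
  congr 1
  funext i
  rw [List.map_replicate]

theorem RAT_prod (T : ℕ) (m s : ℕ → ℕ) (b : ℕ → Bool) (g : ℕ × Bool → ℝ) :
    ((RAT_L T m s b).map g).prod = ∏ i ∈ Finset.range T, g (s i, b i) ^ m i := by
  induction T with
  | zero => simp [RAT_L]
  | succ T ih =>
    rw [Finset.prod_range_succ, ← ih]
    unfold RAT_L
    rw [List.range_succ, List.flatMap_append, List.map_append, List.prod_append]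
    simp

theorem RAT_mem (T : ℕ) (m s : ℕ → ℕ) (b : ℕ → Bool) (a : ℕ × Bool) (ha : a ∈ RAT_L T m s b) :
    ∃ i < T, a.1 = s i := by
  unfold RAT_L at ha
  rw [List.mem_flatMap] at ha
  obtain ⟨i, hi, h⟩ := ha
  refine ⟨i, List.mem_range.1 hi, ?_⟩
  rw [List.eq_of_mem_replicate h]

theorem RAT_tl_append (X Y : List Pat) : tl (X ++ Y) = tl X + tl Y := by
  unfold tl
  rw [List.map_append, List.sum_append]

theorem RAT_tl_Blk (s : ℕ) (ε : Bool) : tl (Blk s ε) = tl (Blk s true) := by
  unfold Blk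
  rw [RAT_tl_append, RAT_tl_append, RAT_tl_append, RAT_tl_append]
  cases ε <;> simp [tl, sw]

theorem RAT_tl_flp (L : List (ℕ × Bool)) : tl (Lst (flp L)) = tl (Lst L) := by
  induction L with
  | nil => rfl
  | cons a L ih =>
    have h1 : Lst (flp (a :: L)) = Blk a.1 (!a.2) ++ Lst (flp L) := by
      simp [Lst, flp]
    have h2 : Lst (a :: L) = Blk a.1 a.2 ++ Lst L := by
      simp [Lst]
    rw [h1, h2, RAT_tl_append, RAT_tl_append, ih, RAT_tl_Blk a.1 (!a.2), RAT_tl_Blk a.1 a.2]

theorem RAT_one_le (S : Finset ℕ) (g : ℕ → ℝ) (h : ∀ i ∈ S, 1 ≤ g i) : 1 ≤ ∏ i ∈ S, g i := by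
  induction S using Finset.induction_on with
  | empty => simp
  | insert a S ha ih =>
    rw [Finset.prod_insert ha]
    have h1 := h a (Finset.mem_insert_self a S)
    have h2 := ih fun i hi => h i (Finset.mem_insert_of_mem hi)
    nlinarith

theorem RAT_main (hHYB : HYB_stmt) (T M k j : ℕ) (m s : ℕ → ℕ) (b : ℕ → Bool)
    (f : List Pat → ℝ) (lo hi : ℕ → ℝ) (hM : 2 ≤ M)
    (hs : ∀ i < T, (s i + 1) ^ 2 ≤ M) (hf : ∀ X, 0 ≤ f X) (hlh : ∀ v, 0 ≤ lo v ∧ 0 ≤ hi v)
    (hch : ∀ i < T, ∀ X Y : List Pat, Adm M X → Adm M Y → tl X ≤ k → tl Y ≤ k →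
      (1 + lo (s i)) * f (X ++ Blk (s i) false ++ Y) ≤ f (X ++ Blk (s i) true ++ Y) ∧
      f (X ++ Blk (s i) true ++ Y) ≤ (1 + hi (s i)) * f (X ++ Blk (s i) false ++ Y))
    (hk : tl (Lst (RAT_L T m s b)) ≤ k) (hj : j < T) (hb : b j = true)
    (h4 : 4 * ∏ i ∈ (Finset.range T).erase j, (1 + hi (s i)) ^ m i ≤ (1 + lo (s j)) ^ m j) :
    4 * f (Lst (flp (RAT_L T m s b))) ≤ f (Lst (RAT_L T m s b)) := by
  have hmain := hHYB M k {v | ∃ i < T, v = s i} f lo hi hM (by
      rintro v ⟨i, hi, rfl⟩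
      exact hs i hi) hf hlh (by
      rintro v ⟨i, hi, rfl⟩ X Y hX hY hX2 hY2
      exact hch i hi X Y hX hY hX2 hY2) (RAT_L T m s b) (by
      intro a ha
      exact RAT_mem T m s b a ha) hk
  rw [RAT_prod, RAT_prod] at hmain
  have hjm : j ∈ Finset.range T := Finset.mem_range.2 hj
  set A := f (Lst (flp (RAT_L T m s b))) with hA
  set B := f (Lst (RAT_L T m s b)) with hB
  have hA0 : 0 ≤ A := hf _
  have hB0 : 0 ≤ B := hf _
  set Q := ∏ i ∈ (Finset.range T).erase j, (1 + hi (s i)) ^ m i with hQ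
  have hQ1 : 1 ≤ Q := by
    apply RAT_one_le
    intro i _
    apply one_le_pow₀
    linarith [(hlh (s i)).2]
  have h1 : (1 + lo (s j)) ^ m j ≤
      ∏ i ∈ Finset.range T, (if (s i, b i).2 = true then 1 + lo (s i, b i).1 else 1) ^ m i := by
    rw [← Finset.mul_prod_erase _ _ hjm]
    have e1 : (if (s j, b j).2 = true then 1 + lo (s j, b j).1 else 1) = 1 + lo (s j) := by
      rw [if_pos hb]
    rw [e1]
    have e2 : 1 ≤ ∏ i ∈ (Finset.range T).erase j,
        (if (s i, b i).2 = true then 1 + lo (s i, b i).1 else 1) ^ m i := by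
      apply RAT_one_le
      intro i _
      apply one_le_pow₀
      split_ifs
      · linarith [(hlh (s i)).1]
      · exact le_rfl
    have e3 : 0 ≤ (1 + lo (s j)) ^ m j := by
      apply pow_nonneg
      linarith [(hlh (s j)).1]
    nlinarith
  have h2 : ∏ i ∈ Finset.range T, (if (s i, b i).2 = true then 1 else 1 + hi (s i, b i).1) ^ m i
      ≤ Q := by
    rw [← Finset.mul_prod_erase _ _ hjm]
    have e1 : (if (s j, b j).2 = true then (1 : ℝ) else 1 + hi (s j, b j).1) = 1 := by
      rw [if_pos hb]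
    rw [e1, one_pow, one_mul]
    apply Finset.prod_le_prod
    · intro i _
      apply pow_nonneg
      split_ifs
      · norm_num
      · linarith [(hlh (s i)).2]
    · intro i _
      apply pow_le_pow_left₀
      · split_ifs
        · norm_num
        · linarith [(hlh (s i)).2]
      · split_ifs
        · linarith [(hlh (s i)).2]
        · exact le_rfl
  have h5 : A * (4 * Q) ≤ B * Q := by
    calc A * (4 * Q) ≤ A * (1 + lo (s j)) ^ m j := mul_le_mul_of_nonneg_left h4 hA0
      _ ≤ A * ∏ i ∈ Finset.range T,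
          (if (s i, b i).2 = true then 1 + lo (s i, b i).1 else 1) ^ m i :=
          mul_le_mul_of_nonneg_left h1 hA0
      _ ≤ B * ∏ i ∈ Finset.range T,
          (if (s i, b i).2 = true then 1 else 1 + hi (s i, b i).1) ^ m i := hmain
      _ ≤ B * Q := mul_le_mul_of_nonneg_left h2 hB0
  have hQ0 : 0 < Q := by linarith
  by_contra hcon
  push Not at hcon
  nlinarith

theorem RAT (hHYB : HYB_stmt) (hRCZ : RCZ_stmt) : RAT_stmt := by
  intro T M k j m s f lo hi hM hs hf hlh hch hk hj h4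
  have hLT : LT T m s = RAT_L T m s fun i => decide (i % 2 = 0) := rfl
  constructor
  · intro hje
    rw [hLT]
    rw [hLT] at hk
    apply RAT_main hHYB T M k j m s _ f lo hi hM hs hf hlh hch hk hj _ h4
    have : j % 2 = 0 := Nat.even_iff.1 hje
    simp [this]
  · intro hjo
    have h1 : RAT_L T m s (fun i => !decide (i % 2 = 0)) = flp (LT T m s) := by
      rw [hLT, RAT_flp]
    have h2 : flp (RAT_L T m s (fun i => !decide (i % 2 = 0))) = LT T m s := by
      rw [hLT, RAT_flp]
      congr 1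
      funext i
      simp
    have h3 := RAT_main hHYB T M k j m s (fun i => !decide (i % 2 = 0)) f lo hi hM hs hf hlh hch
      (by rw [h1, RAT_tl_flp]; exact hk) hj (by
        have : j % 2 ≠ 0 := fun h => hjo (Nat.even_iff.2 h)
        simp [this]) h4
    rw [h2, h1] at h3
    exact h3

end

end Pool.Agent.MSW
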